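import Pool.Agent.H29.LA.Targets

/-!
# (ORB) a part of the fibre which is stable under the elements of `Γ` over `M`
-/

set_option autoImplicit false

open CategoryTheory Polynomial IntermediateField

noncomputable section

namespace Pool.Agent.H64.LAR

open Pool.Agent.H29.LA

open Classical in
theorem pf_ORB (hPAR : T_PAR) : T_ORB := by
  intro F Ω _ _ _ _ m M Γ z hm hodd hz hmap hsq
  -- the permutations
  have hmap' : ∀ g : ↥(Γ ⊓ M.fixingSubgroup), ∀ i, ∃ j, (g : Ω ≃ₐ[F] Ω) (z i) = z j :=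
    fun g i => hmap g (Subgroup.mem_inf.1 g.2).2 i
  choose s hs using hmap'
  have hsinj : ∀ g, Function.Injective (s g) := by
    intro g i j hij
    have h1 : (g : Ω ≃ₐ[F] Ω) (z i) = (g : Ω ≃ₐ[F] Ω) (z j) := by rw [hs, hs, hij]
    exact hz ((g : Ω ≃ₐ[F] Ω).injective h1)
  let φ : ↥(Γ ⊓ M.fixingSubgroup) →* Equiv.Perm (Fin m) :=
    MonoidHom.mk' (fun g => Equiv.ofBijective (s g) (Finite.injective_iff_bijective.1 (hsinj g)))
      (by
        intro g h
        refine Equiv.ext fun i => ?_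
        show s (g * h) i = s g (s h i)
        apply hz
        rw [← hs, ← hs, ← hs]
        rfl)
  have hφ : ∀ (g : ↥(Γ ⊓ M.fixingSubgroup)) (i : Fin m),
      (g : Ω ≃ₐ[F] Ω) (z i) = z (φ g i) := fun g i => hs g i
  have hfin : FiniteDimensional F (IntermediateField.adjoin F (Set.range z)) := by
    have : Finite (Set.range z) := Set.finite_range z
    exact IntermediateField.finiteDimensional_adjoin fun x _ => Algebra.IsIntegral.isIntegral x
  have hker : ∀ g : ↥(Γ ⊓ M.fixingSubgroup),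
      (g : Ω ≃ₐ[F] Ω) ∈ (IntermediateField.adjoin F (Set.range z)).fixingSubgroup → φ g = 1 := by
    intro g hg
    refine Equiv.ext fun i => hz ?_
    rw [← hφ]
    have h1 : z i ∈ IntermediateField.adjoin F (Set.range z) :=
      IntermediateField.subset_adjoin F _ ⟨i, rfl⟩
    have h2 := (IntermediateField.mem_fixingSubgroup_iff _ _).1 hg (z i) h1
    rw [h2]
    rfl
  -- the action is not transitive
  have hnt : ¬ ∀ i j, ∃ g, φ g i = j := by
    intro htr
    obtain ⟨h2, g, hg⟩ := hodd _ hfin φ hker htr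
    obtain ⟨α, hα, hfix⟩ := hsq h2
    have h2' : (2 : Ω) ≠ 0 := by
      intro h
      apply h2
      apply (algebraMap F Ω).injective
      rw [map_ofNat, map_zero]
      exact h
    have h3 := hPAR Ω m z ((g : Ω ≃ₐ[F] Ω) : Ω →+* Ω) (φ g) α h2' hz (fun i => hφ g i) hα
      (hfix g (Subgroup.mem_inf.1 g.2).1 (Subgroup.mem_inf.1 g.2).2)
    rw [h3] at hg
    exact absurd hg (by decide)
  push Not at hnt
  obtain ⟨i, j, hij⟩ := hnt
  refine ⟨Finset.univ.filter (fun a => ∃ g, φ g i = a), ⟨i, ?_⟩, ?_, ?_⟩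
  · rw [Finset.mem_filter]
    exact ⟨Finset.mem_univ i, 1, by rw [map_one]; rfl⟩
  · intro h
    have h1 : j ∈ Finset.univ.filter (fun a => ∃ g, φ g i = a) := by
      rw [h]
      exact Finset.mem_univ j
    obtain ⟨-, g, hg⟩ := Finset.mem_filter.1 h1
    exact hij g hg
  · intro g hg hgM a ha
    obtain ⟨-, h, hh⟩ := Finset.mem_filter.1 ha
    refine ⟨φ ⟨g, Subgroup.mem_inf.2 ⟨hg, hgM⟩⟩ a, ?_, hφ ⟨g, _⟩ a⟩
    rw [Finset.mem_filter]
    refine ⟨Finset.mem_univ _, ⟨g, Subgroup.mem_inf.2 ⟨hg, hgM⟩⟩ * h, ?_⟩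
    rw [map_mul, Equiv.Perm.mul_apply, hh]

end Pool.Agent.H64.LAR
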